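import Pool.Agent.H38.Chv.Red

/-!
The polynomial version of Consensus Halving is hard for the existential theory of the reals, even
when all valuation functions are nondecreasing on `[0, 1]`.
-/

namespace Pool.Agent.Results.MP_73cdf8_lc.Hard

open Pool.Agent.H38.NP Pool.Agent.H38.ER Pool.Agent.H38.Chv

theorem result : ERHardOn (fun p : List (List ℚ) × Bin =>
    ∀ F ∈ p.1, MonotoneOn (pev F) (Set.Icc 0 1)) CH := ch_erh.hardOn

end Pool.Agent.Results.MP_73cdf8_lc.Hard
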